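import Pool.Agent.MP_1037db_co.Q.S4
import Pool.Agent.MP_1037db_co.Q.C.S1C0
import Pool.Agent.MP_1037db_co.Q.C.S2C0
import Pool.Agent.MP_1037db_co.Q.C.S2C1
import Pool.Agent.MP_1037db_co.Q.C.S13P1
import Pool.Agent.MP_1037db_co.Q.C.S13C0
import Pool.Agent.MP_1037db_co.Q.C.S13C1
import Pool.Agent.MP_1037db_co.Q.C.S13C2
import Pool.Agent.MP_1037db_co.Q.C.S13C3
import Pool.Agent.MP_1037db_co.Q.C.S13C4
import Pool.Agent.MP_1037db_co.Q.C.S13C5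
import Pool.Agent.MP_1037db_co.Q.C.S13C6
import Pool.Agent.MP_1037db_co.Q.C.S13C7
import Pool.Agent.MP_1037db_co.Q.C.S13C8
import Pool.Agent.MP_1037db_co.Q.C.S13C9
import Pool.Agent.MP_1037db_co.Q.C.S13C10
import Pool.Agent.MP_1037db_co.Q.C.S13C11
import Pool.Agent.MP_1037db_co.Q.C.S13C12
import Pool.Agent.MP_1037db_co.Q.C.S13C13
import Pool.Agent.MP_1037db_co.Q.C.S13C14
import Pool.Agent.MP_1037db_co.Q.C.S13C15
import Pool.Agent.MP_1037db_co.Q.C.S13C16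
import Pool.Agent.MP_1037db_co.Q.C.S13C17
import Pool.Agent.MP_1037db_co.Q.C.S13C18
import Pool.Agent.MP_1037db_co.Q.C.S13C19
import Pool.Agent.MP_1037db_co.Q.C.S13C20
import Pool.Agent.MP_1037db_co.Q.C.S13C21
import Pool.Agent.MP_1037db_co.Q.C.S13C22
import Pool.Agent.MP_1037db_co.Q.C.S13C23
import Pool.Agent.MP_1037db_co.Q.C.S13C24
import Pool.Agent.MP_1037db_co.Q.C.S13C25
import Pool.Agent.MP_1037db_co.Q.C.S13C26

namespace Pool.Agent.MP_1037db_co.Q.C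

open LP PT.Kc

set_option linter.defProp false
set_option maxRecDepth 100000

noncomputable section

theorem tab1 : tab FA FB D1 R1 5 = true := by decide +kernel

theorem seg1 : Seg ⟨FA, FB, FT, 64026, 10037, 38830, geo_ok⟩ 10037 9830 0 2200 := fun _ E β ht h hb h' => by
  letI : Geo := ⟨FA, FB, FT, 64026, 10037, 38830, geo_ok⟩
  have c : rd R1 35 = 9830 := by decide +kernel
  have g := tc_re (E := E) tab1 (ro := 10037) (C0 := 9830) (by decide +kernel) ht hb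
  have s : St (E.re tab1) β 9830 H1_0 (0 * 32) _ X1_0 _ _ _ _ _ _ :=
    g.start H1_0 9830 0 (by decide +kernel) h h'
  have s : St _ β _ _ (126 * 32) _ _ _ _ _ _ _ _ := s.ru g okX1_0 p1_0_0
  have s : St _ β _ _ (184 * 32) _ _ _ _ _ _ _ _ := s.ru g okX1_0 p1_1_0
  have s : St _ β _ _ (184 * 32) _ _ _ _ _ _ _ _ := s.rnz (i := 5888) g r1_1_11 ⟨by norm_num, c⟩
  have s : St _ β _ _ (184 * 32) _ _ _ _ _ _ _ _ := s.rnz (i := 5888) g r1_1_12 ⟨by norm_num, c⟩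
  have s : St _ β _ _ (184 * 32) _ _ _ _ _ _ _ _ := s.rnz (i := 5888) g r1_2_0 ⟨by norm_num, c⟩
  have s : St _ β _ _ (184 * 32) _ _ _ _ _ _ _ _ := s.rnz (i := 5888) g r1_2_1 ⟨by norm_num, c⟩
  have s : St _ β _ _ (184 * 32) _ _ _ _ _ _ _ _ := s.rnz (i := 5888) g r1_2_2 ⟨by norm_num, c⟩
  have s : St _ β _ _ (184 * 32) _ _ _ _ _ _ _ _ := s.rnz (i := 5888) g r1_2_3 ⟨by norm_num, c⟩
  have s : St _ β _ _ (184 * 32) _ _ _ _ _ _ _ _ := s.rnz (i := 5888) g r1_2_4 ⟨by norm_num, c⟩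
  have s : St _ β _ _ (184 * 32) _ _ _ _ _ _ _ _ := s.rnz (i := 5888) g r1_2_5 ⟨by norm_num, c⟩
  have s : St _ β _ _ (184 * 32) _ _ _ _ _ _ _ _ := s.rnz (i := 5888) g r1_2_6 ⟨by norm_num, c⟩
  have s : St _ β _ _ (184 * 32) _ _ _ _ _ _ _ _ := s.rnz (i := 5888) g r1_3_0 ⟨by norm_num, c⟩
  have s : St _ β _ _ (184 * 32) _ _ _ _ _ _ _ _ := s.rnz (i := 5888) g r1_3_1 ⟨by norm_num, c⟩
  have s : St _ β _ _ (184 * 32) _ _ _ _ _ _ _ _ := s.rnz (i := 5888) g r1_3_2 ⟨by norm_num, c⟩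
  have s : St _ β _ _ (184 * 32) _ _ _ _ _ _ _ _ := s.rnz (i := 5888) g r1_3_3 ⟨by norm_num, c⟩
  have s : St _ β _ _ (184 * 32) _ _ _ _ _ _ _ _ := s.rnz (i := 5888) g r1_3_4 ⟨by norm_num, c⟩
  have s : St _ β _ _ (184 * 32) _ _ _ _ _ _ _ _ := s.rnz (i := 5888) g r1_3_5 ⟨by norm_num, c⟩
  exact s.out g (by decide +kernel)

theorem tab2 : tab FA FB D2 R2 8 = true := by decide +kernel

theorem seg2 : Seg ⟨FA, FB, FT, 64026, 10037, 38830, geo_ok⟩ 10037 9830 2200 3000 := fun _ E β ht h hb h' => by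
  letI : Geo := ⟨FA, FB, FT, 64026, 10037, 38830, geo_ok⟩
  have c : rd R2 35 = 9830 := by decide +kernel
  have g := tc_re (E := E) tab2 (ro := 10037) (C0 := 9830) (by decide +kernel) ht hb
  have s : St (E.re tab2) β 9830 H2_0 (0 * 32) _ X2_0 _ _ _ _ _ _ :=
    g.start H2_0 9830 1 (by decide +kernel) h h'
  have s : St _ β _ _ (129 * 32) _ _ _ _ _ _ _ _ := s.ru g okX2_0 p2_0_0
  have s : St _ β _ _ (230 * 32) _ _ _ _ _ _ _ _ := s.ru g okX2_0 p2_1_0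
  have s : St _ β _ _ (312 * 32) _ _ _ _ _ _ _ _ := s.ru g okX2_0 p2_2_0
  have s : St _ β _ _ (370 * 32) _ _ _ _ _ _ _ _ := s.ru g okX2_0 p2_3_0
  have s : St _ β _ _ (405 * 32) _ _ _ _ _ _ _ _ := s.ru g okX2_0 p2_4_0
  have s : St _ β _ _ (411 * 32) _ _ _ _ _ _ _ _ := s.ru g okX2_0 p2_5_0
  have s : St _ β _ _ (411 * 32) _ _ _ _ _ _ _ _ := s.rnz (i := 13152) g r2_5_3 ⟨by norm_num, c⟩
  have s : St _ β _ _ (411 * 32) _ _ _ _ _ _ _ _ := s.rnz (i := 13152) g r2_5_4 ⟨by norm_num, c⟩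
  have s : St _ β _ _ (411 * 32) _ _ _ _ _ _ _ _ := s.rnz (i := 13152) g r2_5_5 ⟨by norm_num, c⟩
  have s : St _ β _ _ (411 * 32) _ _ _ _ _ _ _ _ := s.rnz (i := 13152) g r2_5_6 ⟨by norm_num, c⟩
  have s : St _ β _ _ (411 * 32) _ _ _ _ _ _ _ _ := s.rnz (i := 13152) g r2_5_7 ⟨by norm_num, c⟩
  have s : St _ β _ _ (411 * 32) _ _ _ _ _ _ _ _ := s.rnz (i := 13152) g r2_5_8 ⟨by norm_num, c⟩
  have s : St _ β _ _ (411 * 32) _ _ _ _ _ _ _ _ := s.rnz (i := 13152) g r2_6_0 ⟨by norm_num, c⟩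
  have s : St _ β _ _ (411 * 32) _ _ _ _ _ _ _ _ := s.rnz (i := 13152) g r2_6_1 ⟨by norm_num, c⟩
  have s : St _ β _ _ (411 * 32) _ _ _ _ _ _ _ _ := s.rnz (i := 13152) g r2_6_2 ⟨by norm_num, c⟩
  have s : St _ β _ _ (411 * 32) _ _ _ _ _ _ _ _ := s.rnz (i := 13152) g r2_6_3 ⟨by norm_num, c⟩
  have s : St _ β _ _ (411 * 32) _ _ _ _ _ _ _ _ := s.rnz (i := 13152) g r2_6_4 ⟨by norm_num, c⟩
  have s : St _ β _ _ (411 * 32) _ _ _ _ _ _ _ _ := s.rnz (i := 13152) g r2_6_5 ⟨by norm_num, c⟩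
  have s : St _ β _ _ (411 * 32) _ _ _ _ _ _ _ _ := s.rnz (i := 13152) g r2_6_6 ⟨by norm_num, c⟩
  have s : St _ β _ _ (411 * 32) _ _ _ _ _ _ _ _ := s.rnz (i := 13152) g r2_7_0 ⟨by norm_num, c⟩
  have s : St _ β _ _ (411 * 32) _ _ _ _ _ _ _ _ := s.rnz (i := 13152) g r2_7_1 ⟨by norm_num, c⟩
  have s : St _ β _ _ (411 * 32) _ _ _ _ _ _ _ _ := s.rnz (i := 13152) g r2_7_2 ⟨by norm_num, c⟩
  have s : St _ β _ _ (411 * 32) _ _ _ _ _ _ _ _ := s.rnz (i := 13152) g r2_7_3 ⟨by norm_num, c⟩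
  have s : St _ β _ _ (411 * 32) _ _ _ _ _ _ _ _ := s.rnz (i := 13152) g r2_7_4 ⟨by norm_num, c⟩
  have s : St _ β _ _ (411 * 32) _ _ _ _ _ _ _ _ := s.rnz (i := 13152) g r2_7_5 ⟨by norm_num, c⟩
  have s : St _ β _ _ (411 * 32) _ _ _ _ _ _ _ _ := s.rnz (i := 13152) g r2_7_6 ⟨by norm_num, c⟩
  have s : St _ β _ _ (411 * 32) _ _ _ _ _ _ _ _ := s.rnz (i := 13152) g r2_8_0 ⟨by norm_num, c⟩
  have s : St _ β _ _ (411 * 32) _ _ _ _ _ _ _ _ := s.rnz (i := 13152) g r2_8_1 ⟨by norm_num, c⟩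
  have s : St _ β _ _ (411 * 32) _ _ _ _ _ _ _ _ := s.rnz (i := 13152) g r2_8_2 ⟨by norm_num, c⟩
  have s : St _ β _ _ (411 * 32) _ _ _ _ _ _ _ _ := s.rnz (i := 13152) g r2_8_3 ⟨by norm_num, c⟩
  exact s.out g (by decide +kernel)

theorem tab13 : tab FA FB D13 R13 10 = true := by decide +kernel

theorem seg13 : Seg ⟨FA, FB, FT, 64026, 10037, 38830, geo_ok⟩ 10037 9830 3000 10038 := fun _ E β ht h hb h' => by
  letI : Geo := ⟨FA, FB, FT, 64026, 10037, 38830, geo_ok⟩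
  have c : rd R13 35 = 9830 := by decide +kernel
  have g := tc_re (E := E) tab13 (ro := 10037) (C0 := 9830) (by decide +kernel) ht hb
  have s : St (E.re tab13) β 9830 H13_0 (0 * 32) _ X13_0 _ _ _ _ _ _ :=
    g.start H13_0 9830 1 (by decide +kernel) h h'
  have s : St _ β _ _ (151 * 32) _ _ _ _ _ _ _ _ := s.ru g okX13_0 p13_0_0
  have s : St _ β _ _ (251 * 32) _ _ _ _ _ _ _ _ := s.ru g okX13_0 p13_1_0
  have s : St _ β _ _ (331 * 32) _ _ _ _ _ _ _ _ := s.ru g okX13_0 p13_2_0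
  have s : St _ β _ _ (399 * 32) _ _ _ _ _ _ _ _ := s.ru g okX13_0 p13_3_0
  have s : St _ β _ _ (461 * 32) _ _ _ _ _ _ _ _ := s.ru g okX13_0 p13_4_0
  have s : St _ β _ _ (523 * 32) _ _ _ _ _ _ _ _ := s.ru g okX13_0 p13_5_0
  have s : St _ β _ _ (577 * 32) _ _ _ _ _ _ _ _ := s.ru g okX13_0 p13_6_0
  have s : St _ β _ _ (626 * 32) _ _ _ _ _ _ _ _ := s.ru g okX13_0 p13_7_0
  have s : St _ β _ _ (684 * 32) _ _ _ _ _ _ _ _ := s.ru g okX13_0 p13_8_0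
  have s : St _ β _ _ (734 * 32) _ _ _ _ _ _ _ _ := s.ru g okX13_0 p13_9_0
  have s : St _ β _ _ (782 * 32) _ _ _ _ _ _ _ _ := s.ru g okX13_0 p13_10_0
  have s : St _ β _ _ (826 * 32) _ _ _ _ _ _ _ _ := s.ru g okX13_0 p13_11_0
  have s : St _ β _ _ (868 * 32) _ _ _ _ _ _ _ _ := s.ru g okX13_0 p13_12_0
  have s : St _ β _ _ (920 * 32) _ _ _ _ _ _ _ _ := s.ru g okX13_0 p13_13_0
  have s : St _ β _ _ (961 * 32) _ _ _ _ _ _ _ _ := s.ru g okX13_0 p13_14_0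
  have s : St _ β _ _ (1009 * 32) _ _ _ _ _ _ _ _ := s.ru g okX13_0 p13_15_0
  have s : St _ β _ _ (1050 * 32) _ _ _ _ _ _ _ _ := s.ru g okX13_0 p13_16_0
  have s : St _ β _ _ (1093 * 32) _ _ _ _ _ _ _ _ := s.ru g okX13_0 p13_17_0
  have s : St _ β _ _ (1127 * 32) _ _ _ _ _ _ _ _ := s.ru g okX13_0 p13_18_0
  have s : St _ β _ _ (1167 * 32) _ _ _ _ _ _ _ _ := s.ru g okX13_0 p13_19_0
  have s : St _ β _ _ (1195 * 32) _ _ _ _ _ _ _ _ := s.ru g okX13_0 p13_20_0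
  have s : St _ β _ _ (1220 * 32) _ _ _ _ _ _ _ _ := s.ru g okX13_0 p13_21_0
  have s : St _ β _ _ (1243 * 32) _ _ _ _ _ _ _ _ := s.ru g okX13_0 p13_22_0
  have s : St _ β _ _ (1269 * 32) _ _ _ _ _ _ _ _ := s.ru g okX13_0 p13_23_0
  have s : St _ β _ _ (1295 * 32) _ _ _ _ _ _ _ _ := s.ru g okX13_0 p13_24_0
  have s : St _ β _ _ (1321 * 32) _ _ _ _ _ _ _ _ := s.ru g okX13_0 p13_25_0
  have s : St _ β _ _ (1336 * 32) _ _ _ _ _ _ _ _ := s.ru g okX13_0 p13_26_0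
  have s : St _ β _ _ (1362 * 32) _ _ _ _ _ _ _ _ := s.ru g okX13_0 p13_27_0
  have s : St _ β _ _ (1377 * 32) _ _ _ _ _ _ _ _ := s.ru g okX13_0 p13_28_0
  have s : St _ β _ _ (1393 * 32) _ _ _ _ _ _ _ _ := s.ru g okX13_0 p13_29_0
  have s : St _ β _ _ (1395 * 32) _ _ _ _ _ _ _ _ := s.ru g okX13_0 p13_30_0
  have s : St _ β _ _ (1395 * 32) _ _ _ _ _ _ _ _ := s.rnz (i := 44640) g r13_30_2 ⟨by norm_num, c⟩
  have s : St _ β _ _ (1395 * 32) _ _ _ _ _ _ _ _ := s.rnz (i := 44640) g r13_30_3 ⟨by norm_num, c⟩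
  have s : St _ β _ _ (1395 * 32) _ _ _ _ _ _ _ _ := s.rnz (i := 44640) g r13_30_4 ⟨by norm_num, c⟩
  have s : St _ β _ _ (1395 * 32) _ _ _ _ _ _ _ _ := s.rnz (i := 44640) g r13_30_5 ⟨by norm_num, c⟩
  have s : St _ β _ _ (1395 * 32) _ _ _ _ _ _ _ _ := s.rnz (i := 44640) g r13_31_0 ⟨by norm_num, c⟩
  have s : St _ β _ _ (1395 * 32) _ _ _ _ _ _ _ _ := s.rnz (i := 44640) g r13_31_1 ⟨by norm_num, c⟩
  have s : St _ β _ _ (1395 * 32) _ _ _ _ _ _ _ _ := s.rnz (i := 44640) g r13_31_2 ⟨by norm_num, c⟩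
  have s : St _ β _ _ (1395 * 32) _ _ _ _ _ _ _ _ := s.rnz (i := 44640) g r13_31_3 ⟨by norm_num, c⟩
  have s : St _ β _ _ (1395 * 32) _ _ _ _ _ _ _ _ := s.rnz (i := 44640) g r13_31_4 ⟨by norm_num, c⟩
  have s : St _ β _ _ (1395 * 32) _ _ _ _ _ _ _ _ := s.rnz (i := 44640) g r13_31_5 ⟨by norm_num, c⟩
  have s : St _ β _ _ (1395 * 32) _ _ _ _ _ _ _ _ := s.rnz (i := 44640) g r13_31_6 ⟨by norm_num, c⟩
  have s : St _ β _ _ (1395 * 32) _ _ _ _ _ _ _ _ := s.rnz (i := 44640) g r13_32_0 ⟨by norm_num, c⟩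
  have s : St _ β _ _ (1395 * 32) _ _ _ _ _ _ _ _ := s.rnz (i := 44640) g r13_32_1 ⟨by norm_num, c⟩
  have s : St _ β _ _ (1395 * 32) _ _ _ _ _ _ _ _ := s.rnz (i := 44640) g r13_32_2 ⟨by norm_num, c⟩
  have s : St _ β _ _ (1395 * 32) _ _ _ _ _ _ _ _ := s.rnz (i := 44640) g r13_32_3 ⟨by norm_num, c⟩
  have s : St _ β _ _ (1395 * 32) _ _ _ _ _ _ _ _ := s.rnz (i := 44640) g r13_32_4 ⟨by norm_num, c⟩
  have s : St _ β _ _ (1395 * 32) _ _ _ _ _ _ _ _ := s.rnz (i := 44640) g r13_32_5 ⟨by norm_num, c⟩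
  have s : St _ β _ _ (1395 * 32) _ _ _ _ _ _ _ _ := s.rnz (i := 44640) g r13_32_6 ⟨by norm_num, c⟩
  have s : St _ β _ _ (1395 * 32) _ _ _ _ _ _ _ _ := s.rnz (i := 44640) g r13_33_0 ⟨by norm_num, c⟩
  have s : St _ β _ _ (1395 * 32) _ _ _ _ _ _ _ _ := s.rnz (i := 44640) g r13_33_1 ⟨by norm_num, c⟩
  have s : St _ β _ _ (1395 * 32) _ _ _ _ _ _ _ _ := s.rnz (i := 44640) g r13_33_2 ⟨by norm_num, c⟩
  have s : St _ β _ _ (1395 * 32) _ _ _ _ _ _ _ _ := s.rnz (i := 44640) g r13_33_3 ⟨by norm_num, c⟩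
  have s : St _ β _ _ (1395 * 32) _ _ _ _ _ _ _ _ := s.rnz (i := 44640) g r13_33_4 ⟨by norm_num, c⟩
  have s : St _ β _ _ (1395 * 32) _ _ _ _ _ _ _ _ := s.rnz (i := 44640) g r13_33_5 ⟨by norm_num, c⟩
  have s : St _ β _ _ (1395 * 32) _ _ _ _ _ _ _ _ := s.rnz (i := 44640) g r13_33_6 ⟨by norm_num, c⟩
  have s : St _ β _ _ (1395 * 32) _ _ _ _ _ _ _ _ := s.rnz (i := 44640) g r13_34_0 ⟨by norm_num, c⟩
  have s : St _ β _ _ (1395 * 32) _ _ _ _ _ _ _ _ := s.rnz (i := 44640) g r13_34_1 ⟨by norm_num, c⟩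
  have s : St _ β _ _ (1395 * 32) _ _ _ _ _ _ _ _ := s.rnz (i := 44640) g r13_34_2 ⟨by norm_num, c⟩
  have s : St _ β _ _ (1395 * 32) _ _ _ _ _ _ _ _ := s.rnz (i := 44640) g r13_34_3 ⟨by norm_num, c⟩
  have s : St _ β _ _ (1395 * 32) _ _ _ _ _ _ _ _ := s.rnz (i := 44640) g r13_34_4 ⟨by norm_num, c⟩
  have s : St _ β _ _ (1395 * 32) _ _ _ _ _ _ _ _ := s.rnz (i := 44640) g r13_34_5 ⟨by norm_num, c⟩
  have s : St _ β _ _ (1395 * 32) _ _ _ _ _ _ _ _ := s.rnz (i := 44640) g r13_34_6 ⟨by norm_num, c⟩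
  have s : St _ β _ _ (1395 * 32) _ _ _ _ _ _ _ _ := s.rnz (i := 44640) g r13_35_0 ⟨by norm_num, c⟩
  have s : St _ β _ _ (1395 * 32) _ _ _ _ _ _ _ _ := s.rnz (i := 44640) g r13_35_1 ⟨by norm_num, c⟩
  have s : St _ β _ _ (1395 * 32) _ _ _ _ _ _ _ _ := s.rnz (i := 44640) g r13_35_2 ⟨by norm_num, c⟩
  have s : St _ β _ _ (1395 * 32) _ _ _ _ _ _ _ _ := s.rnz (i := 44640) g r13_35_3 ⟨by norm_num, c⟩
  have s : St _ β _ _ (1395 * 32) _ _ _ _ _ _ _ _ := s.rnz (i := 44640) g r13_35_4 ⟨by norm_num, c⟩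
  have s : St _ β _ _ (1395 * 32) _ _ _ _ _ _ _ _ := s.rnz (i := 44640) g r13_35_5 ⟨by norm_num, c⟩
  have s : St _ β _ _ (1395 * 32) _ _ _ _ _ _ _ _ := s.rnz (i := 44640) g r13_36_0 ⟨by norm_num, c⟩
  have s : St _ β _ _ (1395 * 32) _ _ _ _ _ _ _ _ := s.rnz (i := 44640) g r13_36_1 ⟨by norm_num, c⟩
  have s : St _ β _ _ (1481 * 32) _ _ _ _ _ _ _ _ := s.ru g okX13_50 p13_36_2
  have s : St _ β _ _ (1555 * 32) _ _ _ _ _ _ _ _ := s.ru g okX13_50 p13_37_0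
  have s : St _ β _ _ (1606 * 32) _ _ _ _ _ _ _ _ := s.ru g okX13_50 p13_38_0
  have s : St _ β _ _ (1654 * 32) _ _ _ _ _ _ _ _ := s.ru g okX13_50 p13_39_0
  have s : St _ β _ _ (1700 * 32) _ _ _ _ _ _ _ _ := s.ru g okX13_50 p13_40_0
  have s : St _ β _ _ (1745 * 32) _ _ _ _ _ _ _ _ := s.ru g okX13_50 p13_41_0
  have s : St _ β _ _ (1789 * 32) _ _ _ _ _ _ _ _ := s.ru g okX13_50 p13_42_0
  have s : St _ β _ _ (1825 * 32) _ _ _ _ _ _ _ _ := s.ru g okX13_50 p13_43_0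
  have s : St _ β _ _ (1863 * 32) _ _ _ _ _ _ _ _ := s.ru g okX13_50 p13_44_0
  have s : St _ β _ _ (1887 * 32) _ _ _ _ _ _ _ _ := s.ru g okX13_50 p13_45_0
  have s : St _ β _ _ (1915 * 32) _ _ _ _ _ _ _ _ := s.ru g okX13_50 p13_46_0
  have s : St _ β _ _ (1943 * 32) _ _ _ _ _ _ _ _ := s.ru g okX13_50 p13_47_0
  have s : St _ β _ _ (1968 * 32) _ _ _ _ _ _ _ _ := s.ru g okX13_50 p13_48_0
  have s : St _ β _ _ (1971 * 32) _ _ _ _ _ _ _ _ := s.ru g okX13_50 p13_49_0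
  have s : St _ β _ _ (1971 * 32) _ _ _ _ _ _ _ _ := s.rnz (i := 63072) g r13_49_2 ⟨by norm_num, c⟩
  have s : St _ β _ _ (1971 * 32) _ _ _ _ _ _ _ _ := s.rnz (i := 63072) g r13_49_3 ⟨by norm_num, c⟩
  have s : St _ β _ _ (1971 * 32) _ _ _ _ _ _ _ _ := s.rnz (i := 63072) g r13_49_4 ⟨by norm_num, c⟩
  have s : St _ β _ _ (1971 * 32) _ _ _ _ _ _ _ _ := s.rnz (i := 63072) g r13_49_5 ⟨by norm_num, c⟩
  have s : St _ β _ _ (1971 * 32) _ _ _ _ _ _ _ _ := s.rnz (i := 63072) g r13_49_6 ⟨by norm_num, c⟩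
  have s : St _ β _ _ (1971 * 32) _ _ _ _ _ _ _ _ := s.rnz (i := 63072) g r13_49_7 ⟨by norm_num, c⟩
  have s : St _ β _ _ (1971 * 32) _ _ _ _ _ _ _ _ := s.rnz (i := 63072) g r13_50_0 ⟨by norm_num, c⟩
  have s : St _ β _ _ (1971 * 32) _ _ _ _ _ _ _ _ := s.rnz (i := 63072) g r13_50_1 ⟨by norm_num, c⟩
  have s : St _ β _ _ (1971 * 32) _ _ _ _ _ _ _ _ := s.rnz (i := 63072) g r13_50_2 ⟨by norm_num, c⟩
  have s : St _ β _ _ (1971 * 32) _ _ _ _ _ _ _ _ := s.rnz (i := 63072) g r13_50_3 ⟨by norm_num, c⟩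
  have s : St _ β _ _ (1971 * 32) _ _ _ _ _ _ _ _ := s.rnz (i := 63072) g r13_50_4 ⟨by norm_num, c⟩
  have s : St _ β _ _ (1971 * 32) _ _ _ _ _ _ _ _ := s.rnz (i := 63072) g r13_50_5 ⟨by norm_num, c⟩
  have s : St _ β _ _ (1971 * 32) _ _ _ _ _ _ _ _ := s.rnz (i := 63072) g r13_51_0 ⟨by norm_num, c⟩
  have s : St _ β _ _ (2054 * 32) _ _ _ _ _ _ _ _ := s.ru g okX13_69 p13_51_1
  have s : St _ β _ _ (2108 * 32) _ _ _ _ _ _ _ _ := s.ru g okX13_69 p13_52_0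
  have s : St _ β _ _ (2152 * 32) _ _ _ _ _ _ _ _ := s.ru g okX13_69 p13_53_0
  have s : St _ β _ _ (2194 * 32) _ _ _ _ _ _ _ _ := s.ru g okX13_69 p13_54_0
  have s : St _ β _ _ (2230 * 32) _ _ _ _ _ _ _ _ := s.ru g okX13_69 p13_55_0
  have s : St _ β _ _ (2263 * 32) _ _ _ _ _ _ _ _ := s.ru g okX13_69 p13_56_0
  have s : St _ β _ _ (2296 * 32) _ _ _ _ _ _ _ _ := s.ru g okX13_69 p13_57_0
  have s : St _ β _ _ (2335 * 32) _ _ _ _ _ _ _ _ := s.ru g okX13_69 p13_58_0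
  have s : St _ β _ _ (2374 * 32) _ _ _ _ _ _ _ _ := s.ru g okX13_69 p13_59_0
  have s : St _ β _ _ (2408 * 32) _ _ _ _ _ _ _ _ := s.ru g okX13_69 p13_60_0
  have s : St _ β _ _ (2444 * 32) _ _ _ _ _ _ _ _ := s.ru g okX13_69 p13_61_0
  have s : St _ β _ _ (2472 * 32) _ _ _ _ _ _ _ _ := s.ru g okX13_69 p13_62_0
  have s : St _ β _ _ (2499 * 32) _ _ _ _ _ _ _ _ := s.ru g okX13_69 p13_63_0
  have s : St _ β _ _ (2528 * 32) _ _ _ _ _ _ _ _ := s.ru g okX13_69 p13_64_0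
  have s : St _ β _ _ (2552 * 32) _ _ _ _ _ _ _ _ := s.ru g okX13_69 p13_65_0
  have s : St _ β _ _ (2584 * 32) _ _ _ _ _ _ _ _ := s.ru g okX13_69 p13_66_0
  have s : St _ β _ _ (2599 * 32) _ _ _ _ _ _ _ _ := s.ru g okX13_69 p13_67_0
  have s : St _ β _ _ (2607 * 32) _ _ _ _ _ _ _ _ := s.ru g okX13_69 p13_68_0
  have s : St _ β _ _ (2607 * 32) _ _ _ _ _ _ _ _ := s.rnz (i := 83424) g r13_68_4 ⟨by norm_num, c⟩
  have s : St _ β _ _ (2607 * 32) _ _ _ _ _ _ _ _ := s.rnz (i := 83424) g r13_68_5 ⟨by norm_num, c⟩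
  have s : St _ β _ _ (2607 * 32) _ _ _ _ _ _ _ _ := s.rnz (i := 83424) g r13_68_6 ⟨by norm_num, c⟩
  have s : St _ β _ _ (2607 * 32) _ _ _ _ _ _ _ _ := s.rnz (i := 83424) g r13_68_7 ⟨by norm_num, c⟩
  have s : St _ β _ _ (2607 * 32) _ _ _ _ _ _ _ _ := s.rnz (i := 83424) g r13_68_8 ⟨by norm_num, c⟩
  have s : St _ β _ _ (2607 * 32) _ _ _ _ _ _ _ _ := s.rnz (i := 83424) g r13_69_0 ⟨by norm_num, c⟩
  have s : St _ β _ _ (2607 * 32) _ _ _ _ _ _ _ _ := s.rnz (i := 83424) g r13_69_1 ⟨by norm_num, c⟩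
  have s : St _ β _ _ (2607 * 32) _ _ _ _ _ _ _ _ := s.rnz (i := 83424) g r13_69_2 ⟨by norm_num, c⟩
  have s : St _ β _ _ (2607 * 32) _ _ _ _ _ _ _ _ := s.rnz (i := 83424) g r13_69_3 ⟨by norm_num, c⟩
  have s : St _ β _ _ (2607 * 32) _ _ _ _ _ _ _ _ := s.rnz (i := 83424) g r13_69_4 ⟨by norm_num, c⟩
  have s : St _ β _ _ (2607 * 32) _ _ _ _ _ _ _ _ := s.rnz (i := 83424) g r13_69_5 ⟨by norm_num, c⟩
  have s : St _ β _ _ (2607 * 32) _ _ _ _ _ _ _ _ := s.rnz (i := 83424) g r13_69_6 ⟨by norm_num, c⟩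
  have s : St _ β _ _ (2607 * 32) _ _ _ _ _ _ _ _ := s.rnz (i := 83424) g r13_70_0 ⟨by norm_num, c⟩
  have s : St _ β _ _ (2607 * 32) _ _ _ _ _ _ _ _ := s.rnz (i := 83424) g r13_70_1 ⟨by norm_num, c⟩
  have s : St _ β _ _ (2607 * 32) _ _ _ _ _ _ _ _ := s.rnz (i := 83424) g r13_70_2 ⟨by norm_num, c⟩
  have s : St _ β _ _ (2607 * 32) _ _ _ _ _ _ _ _ := s.rnz (i := 83424) g r13_70_3 ⟨by norm_num, c⟩
  have s : St _ β _ _ (2607 * 32) _ _ _ _ _ _ _ _ := s.rnz (i := 83424) g r13_70_4 ⟨by norm_num, c⟩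
  have s : St _ β _ _ (2607 * 32) _ _ _ _ _ _ _ _ := s.rnz (i := 83424) g r13_70_5 ⟨by norm_num, c⟩
  have s : St _ β _ _ (2607 * 32) _ _ _ _ _ _ _ _ := s.rnz (i := 83424) g r13_70_6 ⟨by norm_num, c⟩
  have s : St _ β _ _ (2607 * 32) _ _ _ _ _ _ _ _ := s.rnz (i := 83424) g r13_71_0 ⟨by norm_num, c⟩
  have s : St _ β _ _ (2607 * 32) _ _ _ _ _ _ _ _ := s.rnz (i := 83424) g r13_71_1 ⟨by norm_num, c⟩
  have s : St _ β _ _ (2607 * 32) _ _ _ _ _ _ _ _ := s.rnz (i := 83424) g r13_71_2 ⟨by norm_num, c⟩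
  have s : St _ β _ _ (2665 * 32) _ _ _ _ _ _ _ _ := s.ru g okX13_99 p13_71_3
  have s : St _ β _ _ (2718 * 32) _ _ _ _ _ _ _ _ := s.ru g okX13_99 p13_72_0
  have s : St _ β _ _ (2759 * 32) _ _ _ _ _ _ _ _ := s.ru g okX13_99 p13_73_0
  have s : St _ β _ _ (2809 * 32) _ _ _ _ _ _ _ _ := s.ru g okX13_99 p13_74_0
  have s : St _ β _ _ (2846 * 32) _ _ _ _ _ _ _ _ := s.ru g okX13_99 p13_75_0
  have s : St _ β _ _ (2873 * 32) _ _ _ _ _ _ _ _ := s.ru g okX13_99 p13_76_0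
  have s : St _ β _ _ (2906 * 32) _ _ _ _ _ _ _ _ := s.ru g okX13_99 p13_77_0
  have s : St _ β _ _ (2937 * 32) _ _ _ _ _ _ _ _ := s.ru g okX13_99 p13_78_0
  have s : St _ β _ _ (2953 * 32) _ _ _ _ _ _ _ _ := s.ru g okX13_99 p13_79_0
  have s : St _ β _ _ (2953 * 32) _ _ _ _ _ _ _ _ := s.rnz (i := 94496) g r13_79_10 ⟨by norm_num, c⟩
  have s : St _ β _ _ (2953 * 32) _ _ _ _ _ _ _ _ := s.rnz (i := 94496) g r13_79_11 ⟨by norm_num, c⟩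
  have s : St _ β _ _ (2953 * 32) _ _ _ _ _ _ _ _ := s.rnz (i := 94496) g r13_80_0 ⟨by norm_num, c⟩
  have s : St _ β _ _ (2953 * 32) _ _ _ _ _ _ _ _ := s.rnz (i := 94496) g r13_80_1 ⟨by norm_num, c⟩
  have s : St _ β _ _ (2953 * 32) _ _ _ _ _ _ _ _ := s.rnz (i := 94496) g r13_80_2 ⟨by norm_num, c⟩
  have s : St _ β _ _ (2953 * 32) _ _ _ _ _ _ _ _ := s.rnz (i := 94496) g r13_80_3 ⟨by norm_num, c⟩
  have s : St _ β _ _ (2953 * 32) _ _ _ _ _ _ _ _ := s.rnz (i := 94496) g r13_80_4 ⟨by norm_num, c⟩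
  have s : St _ β _ _ (2953 * 32) _ _ _ _ _ _ _ _ := s.rnz (i := 94496) g r13_80_5 ⟨by norm_num, c⟩
  have s : St _ β _ _ (2953 * 32) _ _ _ _ _ _ _ _ := s.rnz (i := 94496) g r13_80_6 ⟨by norm_num, c⟩
  have s : St _ β _ _ (2953 * 32) _ _ _ _ _ _ _ _ := s.rnz (i := 94496) g r13_81_0 ⟨by norm_num, c⟩
  have s : St _ β _ _ (2953 * 32) _ _ _ _ _ _ _ _ := s.rnz (i := 94496) g r13_81_1 ⟨by norm_num, c⟩
  have s : St _ β _ _ (2953 * 32) _ _ _ _ _ _ _ _ := s.rnz (i := 94496) g r13_81_2 ⟨by norm_num, c⟩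
  have s : St _ β _ _ (2995 * 32) _ _ _ _ _ _ _ _ := s.ru g okX13_118 p13_81_3
  have s : St _ β _ _ (3064 * 32) _ _ _ _ _ _ _ _ := s.ru g okX13_118 p13_82_0
  have s : St _ β _ _ (3117 * 32) _ _ _ _ _ _ _ _ := s.ru g okX13_118 p13_83_0
  have s : St _ β _ _ (3161 * 32) _ _ _ _ _ _ _ _ := s.ru g okX13_118 p13_84_0
  have s : St _ β _ _ (3193 * 32) _ _ _ _ _ _ _ _ := s.ru g okX13_118 p13_85_0
  have s : St _ β _ _ (3226 * 32) _ _ _ _ _ _ _ _ := s.ru g okX13_118 p13_86_0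
  have s : St _ β _ _ (3253 * 32) _ _ _ _ _ _ _ _ := s.ru g okX13_118 p13_87_0
  have s : St _ β _ _ (3259 * 32) _ _ _ _ _ _ _ _ := s.ru g okX13_118 p13_88_0
  have s : St _ β _ _ (3259 * 32) _ _ _ _ _ _ _ _ := s.rnz (i := 104288) g r13_88_3 ⟨by norm_num, c⟩
  have s : St _ β _ _ (3259 * 32) _ _ _ _ _ _ _ _ := s.rnz (i := 104288) g r13_88_4 ⟨by norm_num, c⟩
  have s : St _ β _ _ (3259 * 32) _ _ _ _ _ _ _ _ := s.rnz (i := 104288) g r13_88_5 ⟨by norm_num, c⟩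
  have s : St _ β _ _ (3259 * 32) _ _ _ _ _ _ _ _ := s.rnz (i := 104288) g r13_88_6 ⟨by norm_num, c⟩
  have s : St _ β _ _ (3259 * 32) _ _ _ _ _ _ _ _ := s.rnz (i := 104288) g r13_88_7 ⟨by norm_num, c⟩
  have s : St _ β _ _ (3259 * 32) _ _ _ _ _ _ _ _ := s.rnz (i := 104288) g r13_89_0 ⟨by norm_num, c⟩
  have s : St _ β _ _ (3259 * 32) _ _ _ _ _ _ _ _ := s.rnz (i := 104288) g r13_89_1 ⟨by norm_num, c⟩
  have s : St _ β _ _ (3259 * 32) _ _ _ _ _ _ _ _ := s.rnz (i := 104288) g r13_89_2 ⟨by norm_num, c⟩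
  have s : St _ β _ _ (3259 * 32) _ _ _ _ _ _ _ _ := s.rnz (i := 104288) g r13_89_3 ⟨by norm_num, c⟩
  have s : St _ β _ _ (3259 * 32) _ _ _ _ _ _ _ _ := s.rnz (i := 104288) g r13_89_4 ⟨by norm_num, c⟩
  have s : St _ β _ _ (3259 * 32) _ _ _ _ _ _ _ _ := s.rnz (i := 104288) g r13_89_5 ⟨by norm_num, c⟩
  have s : St _ β _ _ (3259 * 32) _ _ _ _ _ _ _ _ := s.rnz (i := 104288) g r13_90_0 ⟨by norm_num, c⟩
  have s : St _ β _ _ (3339 * 32) _ _ _ _ _ _ _ _ := s.ru g okX13_133 p13_90_1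
  have s : St _ β _ _ (3396 * 32) _ _ _ _ _ _ _ _ := s.ru g okX13_133 p13_91_0
  have s : St _ β _ _ (3442 * 32) _ _ _ _ _ _ _ _ := s.ru g okX13_133 p13_92_0
  have s : St _ β _ _ (3474 * 32) _ _ _ _ _ _ _ _ := s.ru g okX13_133 p13_93_0
  have s : St _ β _ _ (3509 * 32) _ _ _ _ _ _ _ _ := s.ru g okX13_133 p13_94_0
  have s : St _ β _ _ (3519 * 32) _ _ _ _ _ _ _ _ := s.ru g okX13_133 p13_95_0
  have s : St _ β _ _ (3519 * 32) _ _ _ _ _ _ _ _ := s.rnz (i := 112608) g r13_95_5 ⟨by norm_num, c⟩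
  have s : St _ β _ _ (3519 * 32) _ _ _ _ _ _ _ _ := s.rnz (i := 112608) g r13_95_6 ⟨by norm_num, c⟩
  have s : St _ β _ _ (3519 * 32) _ _ _ _ _ _ _ _ := s.rnz (i := 112608) g r13_95_7 ⟨by norm_num, c⟩
  have s : St _ β _ _ (3519 * 32) _ _ _ _ _ _ _ _ := s.rnz (i := 112608) g r13_95_8 ⟨by norm_num, c⟩
  have s : St _ β _ _ (3519 * 32) _ _ _ _ _ _ _ _ := s.rnz (i := 112608) g r13_96_0 ⟨by norm_num, c⟩
  have s : St _ β _ _ (3519 * 32) _ _ _ _ _ _ _ _ := s.rnz (i := 112608) g r13_96_1 ⟨by norm_num, c⟩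
  have s : St _ β _ _ (3519 * 32) _ _ _ _ _ _ _ _ := s.rnz (i := 112608) g r13_96_2 ⟨by norm_num, c⟩
  have s : St _ β _ _ (3519 * 32) _ _ _ _ _ _ _ _ := s.rnz (i := 112608) g r13_96_3 ⟨by norm_num, c⟩
  have s : St _ β _ _ (3559 * 32) _ _ _ _ _ _ _ _ := s.ru g okX13_144 p13_96_4
  have s : St _ β _ _ (3627 * 32) _ _ _ _ _ _ _ _ := s.ru g okX13_144 p13_97_0
  have s : St _ β _ _ (3688 * 32) _ _ _ _ _ _ _ _ := s.ru g okX13_144 p13_98_0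
  have s : St _ β _ _ (3734 * 32) _ _ _ _ _ _ _ _ := s.ru g okX13_144 p13_99_0
  have s : St _ β _ _ (3764 * 32) _ _ _ _ _ _ _ _ := s.ru g okX13_144 p13_100_0
  have s : St _ β _ _ (3780 * 32) _ _ _ _ _ _ _ _ := s.ru g okX13_144 p13_101_0
  have s : St _ β _ _ (3780 * 32) _ _ _ _ _ _ _ _ := s.rnz (i := 120960) g r13_101_5 ⟨by norm_num, c⟩
  have s : St _ β _ _ (3780 * 32) _ _ _ _ _ _ _ _ := s.rnz (i := 120960) g r13_101_6 ⟨by norm_num, c⟩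
  have s : St _ β _ _ (3780 * 32) _ _ _ _ _ _ _ _ := s.rnz (i := 120960) g r13_101_7 ⟨by norm_num, c⟩
  have s : St _ β _ _ (3780 * 32) _ _ _ _ _ _ _ _ := s.rnz (i := 120960) g r13_101_8 ⟨by norm_num, c⟩
  have s : St _ β _ _ (3780 * 32) _ _ _ _ _ _ _ _ := s.rnz (i := 120960) g r13_102_0 ⟨by norm_num, c⟩
  have s : St _ β _ _ (3780 * 32) _ _ _ _ _ _ _ _ := s.rnz (i := 120960) g r13_102_1 ⟨by norm_num, c⟩
  have s : St _ β _ _ (3780 * 32) _ _ _ _ _ _ _ _ := s.rnz (i := 120960) g r13_102_2 ⟨by norm_num, c⟩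
  have s : St _ β _ _ (3780 * 32) _ _ _ _ _ _ _ _ := s.rnz (i := 120960) g r13_102_3 ⟨by norm_num, c⟩
  have s : St _ β _ _ (3811 * 32) _ _ _ _ _ _ _ _ := s.ru g okX13_158 p13_102_4
  have s : St _ β _ _ (3866 * 32) _ _ _ _ _ _ _ _ := s.ru g okX13_158 p13_103_0
  have s : St _ β _ _ (3914 * 32) _ _ _ _ _ _ _ _ := s.ru g okX13_158 p13_104_0
  have s : St _ β _ _ (3951 * 32) _ _ _ _ _ _ _ _ := s.ru g okX13_158 p13_105_0
  have s : St _ β _ _ (3980 * 32) _ _ _ _ _ _ _ _ := s.ru g okX13_158 p13_106_0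
  have s : St _ β _ _ (3984 * 32) _ _ _ _ _ _ _ _ := s.ru g okX13_158 p13_107_0
  have s : St _ β _ _ (3984 * 32) _ _ _ _ _ _ _ _ := s.rnz (i := 127488) g r13_107_2 ⟨by norm_num, c⟩
  have s : St _ β _ _ (3984 * 32) _ _ _ _ _ _ _ _ := s.rnz (i := 127488) g r13_107_3 ⟨by norm_num, c⟩
  have s : St _ β _ _ (3984 * 32) _ _ _ _ _ _ _ _ := s.rnz (i := 127488) g r13_107_4 ⟨by norm_num, c⟩
  have s : St _ β _ _ (3984 * 32) _ _ _ _ _ _ _ _ := s.rnz (i := 127488) g r13_107_5 ⟨by norm_num, c⟩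
  have s : St _ β _ _ (3984 * 32) _ _ _ _ _ _ _ _ := s.rnz (i := 127488) g r13_107_6 ⟨by norm_num, c⟩
  have s : St _ β _ _ (3984 * 32) _ _ _ _ _ _ _ _ := s.rnz (i := 127488) g r13_108_0 ⟨by norm_num, c⟩
  have s : St _ β _ _ (3984 * 32) _ _ _ _ _ _ _ _ := s.rnz (i := 127488) g r13_108_1 ⟨by norm_num, c⟩
  have s : St _ β _ H13_1 (716 * 32) _ _ _ _ _ _ _ _ := s.cpy (i := 127488) cp13_1
  have s : St _ β _ _ (783 * 32) _ _ _ _ _ _ _ _ := s.ru g okX13_167 p13_109_0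
  have s : St _ β _ _ (829 * 32) _ _ _ _ _ _ _ _ := s.ru g okX13_167 p13_110_0
  have s : St _ β _ _ (869 * 32) _ _ _ _ _ _ _ _ := s.ru g okX13_167 p13_111_0
  have s : St _ β _ _ (890 * 32) _ _ _ _ _ _ _ _ := s.ru g okX13_167 p13_112_0
  have s : St _ β _ _ (890 * 32) _ _ _ _ _ _ _ _ := s.rnz (i := 28480) g r13_112_9 ⟨by norm_num, c⟩
  have s : St _ β _ _ (890 * 32) _ _ _ _ _ _ _ _ := s.rnz (i := 28480) g r13_112_10 ⟨by norm_num, c⟩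
  have s : St _ β _ _ (890 * 32) _ _ _ _ _ _ _ _ := s.rnz (i := 28480) g r13_112_11 ⟨by norm_num, c⟩
  have s : St _ β _ _ (890 * 32) _ _ _ _ _ _ _ _ := s.rnz (i := 28480) g r13_113_0 ⟨by norm_num, c⟩
  have s : St _ β _ _ (947 * 32) _ _ _ _ _ _ _ _ := s.ru g okX13_175 p13_113_1
  have s : St _ β _ _ (982 * 32) _ _ _ _ _ _ _ _ := s.ru g okX13_175 p13_114_0
  have s : St _ β _ _ (984 * 32) _ _ _ _ _ _ _ _ := s.ru g okX13_175 p13_115_0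
  have s : St _ β _ _ (984 * 32) _ _ _ _ _ _ _ _ := s.rnz (i := 31488) g r13_115_1 ⟨by norm_num, c⟩
  have s : St _ β _ _ (984 * 32) _ _ _ _ _ _ _ _ := s.rnz (i := 31488) g r13_115_2 ⟨by norm_num, c⟩
  have s : St _ β _ _ (984 * 32) _ _ _ _ _ _ _ _ := s.rnz (i := 31488) g r13_115_3 ⟨by norm_num, c⟩
  have s : St _ β _ _ (1026 * 32) _ _ _ _ _ _ _ _ := s.ru g okX13_180 p13_115_4
  have s : St _ β _ _ (1067 * 32) _ _ _ _ _ _ _ _ := s.ru g okX13_180 p13_116_0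
  have s : St _ β _ _ (1070 * 32) _ _ _ _ _ _ _ _ := s.ru g okX13_180 p13_117_0
  have s : St _ β _ _ (1070 * 32) _ _ _ _ _ _ _ _ := s.rnz (i := 34240) g r13_117_1 ⟨by norm_num, c⟩
  have s : St _ β _ _ (1070 * 32) _ _ _ _ _ _ _ _ := s.rnz (i := 34240) g r13_117_2 ⟨by norm_num, c⟩
  have s : St _ β _ _ (1094 * 32) _ _ _ _ _ _ _ _ := s.ru g okX13_184 p13_117_3
  have s : St _ β _ _ (1094 * 32) _ _ _ _ _ _ _ _ := s.rnz (i := 35008) g r13_117_10 ⟨by norm_num, c⟩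
  have s : St _ β _ _ (1095 * 32) _ _ _ _ _ _ _ _ := s.ru g okX13_186 p13_117_11
  have s : St _ β _ _ (1118 * 32) _ _ _ _ _ _ _ _ := s.ru g okX13_186 p13_118_0
  have s : St _ β _ _ (1118 * 32) _ _ _ _ _ _ _ _ := s.rnz (i := 35776) g r13_118_5 ⟨by norm_num, c⟩
  have s : St _ β _ _ (1158 * 32) _ _ _ _ _ _ _ _ := s.ru g okX13_188 p13_118_6
  have s : St _ β _ _ (1178 * 32) _ _ _ _ _ _ _ _ := s.ru g okX13_188 p13_119_0
  have s : St _ β _ _ (1178 * 32) _ _ _ _ _ _ _ _ := s.rnz (i := 37696) g r13_119_7 ⟨by norm_num, c⟩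
  have s : St _ β _ _ (1178 * 32) _ _ _ _ _ _ _ _ := s.rnz (i := 37696) g r13_119_8 ⟨by norm_num, c⟩
  have s : St _ β _ _ (1178 * 32) _ _ _ _ _ _ _ _ := s.rnz (i := 37696) g r13_120_0 ⟨by norm_num, c⟩
  have s : St _ β _ _ (1178 * 32) _ _ _ _ _ _ _ _ := s.rnz (i := 37696) g r13_120_1 ⟨by norm_num, c⟩
  have s : St _ β _ _ (1219 * 32) _ _ _ _ _ _ _ _ := s.ru g okX13_188 p13_120_2
  have s : St _ β _ _ (1253 * 32) _ _ _ _ _ _ _ _ := s.ru g okX13_188 p13_121_0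
  have s : St _ β _ _ (1253 * 32) _ _ _ _ _ _ _ _ := s.rnz (i := 40096) g r13_121_11 ⟨by norm_num, c⟩
  have s : St _ β _ _ (1253 * 32) _ _ _ _ _ _ _ _ := s.rnz (i := 40096) g r13_122_0 ⟨by norm_num, c⟩
  have s : St _ β _ _ (1331 * 32) _ _ _ _ _ _ _ _ := s.ru g okX13_194 p13_122_1
  have s : St _ β _ _ (1395 * 32) _ _ _ _ _ _ _ _ := s.ru g okX13_194 p13_123_0
  have s : St _ β _ _ (1446 * 32) _ _ _ _ _ _ _ _ := s.ru g okX13_194 p13_124_0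
  have s : St _ β _ _ (1490 * 32) _ _ _ _ _ _ _ _ := s.ru g okX13_194 p13_125_0
  have s : St _ β _ _ (1523 * 32) _ _ _ _ _ _ _ _ := s.ru g okX13_194 p13_126_0
  have s : St _ β _ _ (1523 * 32) _ _ _ _ _ _ _ _ := s.rnz (i := 48736) g r13_126_11 ⟨by norm_num, c⟩
  have s : St _ β _ _ (1523 * 32) _ _ _ _ _ _ _ _ := s.rnz (i := 48736) g r13_127_0 ⟨by norm_num, c⟩
  have s : St _ β _ _ (1523 * 32) _ _ _ _ _ _ _ _ := s.rnz (i := 48736) g r13_127_1 ⟨by norm_num, c⟩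
  have s : St _ β _ _ (1523 * 32) _ _ _ _ _ _ _ _ := s.rnz (i := 48736) g r13_127_2 ⟨by norm_num, c⟩
  have s : St _ β _ _ (1523 * 32) _ _ _ _ _ _ _ _ := s.rnz (i := 48736) g r13_127_3 ⟨by norm_num, c⟩
  have s : St _ β _ _ (1523 * 32) _ _ _ _ _ _ _ _ := s.rnz (i := 48736) g r13_127_4 ⟨by norm_num, c⟩
  have s : St _ β _ _ (1523 * 32) _ _ _ _ _ _ _ _ := s.rnz (i := 48736) g r13_127_5 ⟨by norm_num, c⟩
  have s : St _ β _ _ (1530 * 32) _ _ _ _ _ _ _ _ := s.ru g okX13_205 p13_127_6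
  have s : St _ β _ _ (1602 * 32) _ _ _ _ _ _ _ _ := s.ru g okX13_205 p13_128_0
  have s : St _ β _ _ (1658 * 32) _ _ _ _ _ _ _ _ := s.ru g okX13_205 p13_129_0
  have s : St _ β _ _ (1701 * 32) _ _ _ _ _ _ _ _ := s.ru g okX13_205 p13_130_0
  have s : St _ β _ _ (1716 * 32) _ _ _ _ _ _ _ _ := s.ru g okX13_205 p13_131_0
  have s : St _ β _ _ (1716 * 32) _ _ _ _ _ _ _ _ := s.rnz (i := 54912) g r13_131_5 ⟨by norm_num, c⟩
  have s : St _ β _ _ (1716 * 32) _ _ _ _ _ _ _ _ := s.rnz (i := 54912) g r13_131_6 ⟨by norm_num, c⟩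
  have s : St _ β _ _ (1716 * 32) _ _ _ _ _ _ _ _ := s.rnz (i := 54912) g r13_131_7 ⟨by norm_num, c⟩
  have s : St _ β _ _ (1716 * 32) _ _ _ _ _ _ _ _ := s.rnz (i := 54912) g r13_131_8 ⟨by norm_num, c⟩
  have s : St _ β _ _ (1716 * 32) _ _ _ _ _ _ _ _ := s.rnz (i := 54912) g r13_131_9 ⟨by norm_num, c⟩
  have s : St _ β _ _ (1716 * 32) _ _ _ _ _ _ _ _ := s.rnz (i := 54912) g r13_132_0 ⟨by norm_num, c⟩
  have s : St _ β _ _ (1716 * 32) _ _ _ _ _ _ _ _ := s.rnz (i := 54912) g r13_132_1 ⟨by norm_num, c⟩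
  have s : St _ β _ _ (1716 * 32) _ _ _ _ _ _ _ _ := s.rnz (i := 54912) g r13_132_2 ⟨by norm_num, c⟩
  have s : St _ β _ _ (1716 * 32) _ _ _ _ _ _ _ _ := s.rnz (i := 54912) g r13_132_3 ⟨by norm_num, c⟩
  have s : St _ β _ _ (1758 * 32) _ _ _ _ _ _ _ _ := s.ru g okX13_219 p13_132_4
  have s : St _ β _ _ (1830 * 32) _ _ _ _ _ _ _ _ := s.ru g okX13_219 p13_133_0
  have s : St _ β _ _ (1875 * 32) _ _ _ _ _ _ _ _ := s.ru g okX13_219 p13_134_0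
  have s : St _ β _ _ (1893 * 32) _ _ _ _ _ _ _ _ := s.ru g okX13_219 p13_135_0
  have s : St _ β _ _ (1893 * 32) _ _ _ _ _ _ _ _ := s.rnz (i := 60576) g r13_135_6 ⟨by norm_num, c⟩
  have s : St _ β _ _ (1893 * 32) _ _ _ _ _ _ _ _ := s.rnz (i := 60576) g r13_135_7 ⟨by norm_num, c⟩
  have s : St _ β _ _ (1893 * 32) _ _ _ _ _ _ _ _ := s.rnz (i := 60576) g r13_135_8 ⟨by norm_num, c⟩
  have s : St _ β _ _ (1893 * 32) _ _ _ _ _ _ _ _ := s.rnz (i := 60576) g r13_135_9 ⟨by norm_num, c⟩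
  have s : St _ β _ _ (1893 * 32) _ _ _ _ _ _ _ _ := s.rnz (i := 60576) g r13_136_0 ⟨by norm_num, c⟩
  have s : St _ β _ _ (1978 * 32) _ _ _ _ _ _ _ _ := s.ru g okX13_227 p13_136_1
  have s : St _ β _ _ (2050 * 32) _ _ _ _ _ _ _ _ := s.ru g okX13_227 p13_137_0
  have s : St _ β _ _ (2098 * 32) _ _ _ _ _ _ _ _ := s.ru g okX13_227 p13_138_0
  have s : St _ β _ _ (2104 * 32) _ _ _ _ _ _ _ _ := s.ru g okX13_227 p13_139_0
  have s : St _ β _ _ (2104 * 32) _ _ _ _ _ _ _ _ := s.rnz (i := 67328) g r13_139_2 ⟨by norm_num, c⟩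
  have s : St _ β _ _ (2104 * 32) _ _ _ _ _ _ _ _ := s.rnz (i := 67328) g r13_139_3 ⟨by norm_num, c⟩
  have s : St _ β _ _ (2104 * 32) _ _ _ _ _ _ _ _ := s.rnz (i := 67328) g r13_139_4 ⟨by norm_num, c⟩
  have s : St _ β _ _ (2104 * 32) _ _ _ _ _ _ _ _ := s.rnz (i := 67328) g r13_139_5 ⟨by norm_num, c⟩
  have s : St _ β _ _ (2104 * 32) _ _ _ _ _ _ _ _ := s.rnz (i := 67328) g r13_139_6 ⟨by norm_num, c⟩
  have s : St _ β _ _ (2104 * 32) _ _ _ _ _ _ _ _ := s.rnz (i := 67328) g r13_139_7 ⟨by norm_num, c⟩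
  have s : St _ β _ _ (2104 * 32) _ _ _ _ _ _ _ _ := s.rnz (i := 67328) g r13_140_0 ⟨by norm_num, c⟩
  have s : St _ β _ _ (2104 * 32) _ _ _ _ _ _ _ _ := s.rnz (i := 67328) g r13_140_1 ⟨by norm_num, c⟩
  have s : St _ β _ _ (2170 * 32) _ _ _ _ _ _ _ _ := s.ru g okX13_239 p13_140_2
  have s : St _ β _ _ (2238 * 32) _ _ _ _ _ _ _ _ := s.ru g okX13_239 p13_141_0
  have s : St _ β _ _ (2292 * 32) _ _ _ _ _ _ _ _ := s.ru g okX13_239 p13_142_0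
  have s : St _ β _ _ (2323 * 32) _ _ _ _ _ _ _ _ := s.ru g okX13_239 p13_143_0
  have s : St _ β _ _ (2323 * 32) _ _ _ _ _ _ _ _ := s.rnz (i := 74336) g r13_143_7 ⟨by norm_num, c⟩
  have s : St _ β _ _ (2323 * 32) _ _ _ _ _ _ _ _ := s.rnz (i := 74336) g r13_143_8 ⟨by norm_num, c⟩
  have s : St _ β _ _ (2323 * 32) _ _ _ _ _ _ _ _ := s.rnz (i := 74336) g r13_143_9 ⟨by norm_num, c⟩
  have s : St _ β _ _ (2323 * 32) _ _ _ _ _ _ _ _ := s.rnz (i := 74336) g r13_144_0 ⟨by norm_num, c⟩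
  have s : St _ β _ _ (2323 * 32) _ _ _ _ _ _ _ _ := s.rnz (i := 74336) g r13_144_1 ⟨by norm_num, c⟩
  have s : St _ β _ _ (2323 * 32) _ _ _ _ _ _ _ _ := s.rnz (i := 74336) g r13_144_2 ⟨by norm_num, c⟩
  have s : St _ β _ _ (2323 * 32) _ _ _ _ _ _ _ _ := s.rnz (i := 74336) g r13_144_3 ⟨by norm_num, c⟩
  have s : St _ β _ _ (2323 * 32) _ _ _ _ _ _ _ _ := s.rnz (i := 74336) g r13_144_4 ⟨by norm_num, c⟩
  have s : St _ β _ _ (2323 * 32) _ _ _ _ _ _ _ _ := s.rnz (i := 74336) g r13_144_5 ⟨by norm_num, c⟩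
  have s : St _ β _ _ (2333 * 32) _ _ _ _ _ _ _ _ := s.ru g okX13_252 p13_144_6
  have s : St _ β _ _ (2357 * 32) _ _ _ _ _ _ _ _ := s.ru g okX13_252 p13_145_0
  have s : St _ β _ _ (2357 * 32) _ _ _ _ _ _ _ _ := s.rnz (i := 75424) g r13_145_4 ⟨by norm_num, c⟩
  have s : St _ β _ _ (2413 * 32) _ _ _ _ _ _ _ _ := s.ru g okX13_252 p13_145_5
  have s : St _ β _ _ (2443 * 32) _ _ _ _ _ _ _ _ := s.ru g okX13_252 p13_146_0
  have s : St _ β _ _ (2443 * 32) _ _ _ _ _ _ _ _ := s.rnz (i := 78176) g r13_146_6 ⟨by norm_num, c⟩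
  have s : St _ β _ _ (2443 * 32) _ _ _ _ _ _ _ _ := s.rnz (i := 78176) g r13_146_7 ⟨by norm_num, c⟩
  have s : St _ β _ _ (2443 * 32) _ _ _ _ _ _ _ _ := s.rnz (i := 78176) g r13_146_8 ⟨by norm_num, c⟩
  have s : St _ β _ _ (2456 * 32) _ _ _ _ _ _ _ _ := s.ru g okX13_258 p13_146_9
  have s : St _ β _ _ (2504 * 32) _ _ _ _ _ _ _ _ := s.ru g okX13_258 p13_147_0
  have s : St _ β _ _ (2504 * 32) _ _ _ _ _ _ _ _ := s.rnz (i := 80128) g r13_147_8 ⟨by norm_num, c⟩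
  have s : St _ β _ _ (2504 * 32) _ _ _ _ _ _ _ _ := s.rnz (i := 80128) g r13_147_9 ⟨by norm_num, c⟩
  have s : St _ β _ _ (2504 * 32) _ _ _ _ _ _ _ _ := s.rnz (i := 80128) g r13_148_0 ⟨by norm_num, c⟩
  have s : St _ β _ _ (2557 * 32) _ _ _ _ _ _ _ _ := s.ru g okX13_265 p13_148_1
  have s : St _ β _ _ (2557 * 32) _ _ _ _ _ _ _ _ := s.rnz (i := 81824) g r13_148_11 ⟨by norm_num, c⟩
  have s : St _ β _ _ (2557 * 32) _ _ _ _ _ _ _ _ := s.rnz (i := 81824) g r13_149_0 ⟨by norm_num, c⟩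
  have s : St _ β _ _ (2557 * 32) _ _ _ _ _ _ _ _ := s.rnz (i := 81824) g r13_149_1 ⟨by norm_num, c⟩
  have s : St _ β _ _ (2557 * 32) _ _ _ _ _ _ _ _ := s.rnz (i := 81824) g r13_149_2 ⟨by norm_num, c⟩
  have s : St _ β _ _ (2599 * 32) _ _ _ _ _ _ _ _ := s.ru g okX13_272 p13_149_3
  have s : St _ β _ _ (2599 * 32) _ _ _ _ _ _ _ _ := s.rnz (i := 83168) g r13_149_11 ⟨by norm_num, c⟩
  have s : St _ β _ _ (2599 * 32) _ _ _ _ _ _ _ _ := s.rnz (i := 83168) g r13_150_0 ⟨by norm_num, c⟩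
  have s : St _ β _ _ (2599 * 32) _ _ _ _ _ _ _ _ := s.rnz (i := 83168) g r13_150_1 ⟨by norm_num, c⟩
  have s : St _ β _ _ (2625 * 32) _ _ _ _ _ _ _ _ := s.ru g okX13_279 p13_150_2
  have s : St _ β _ _ (2625 * 32) _ _ _ _ _ _ _ _ := s.rnz (i := 84000) g r13_150_7 ⟨by norm_num, c⟩
  have s : St _ β _ _ (2626 * 32) _ _ _ _ _ _ _ _ := s.ru g okX13_281 p13_150_8
  have s : St _ β _ _ (2626 * 32) _ _ _ _ _ _ _ _ := s.rnz (i := 84032) g r13_150_9 ⟨by norm_num, c⟩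
  have s : St _ β _ _ (2638 * 32) _ _ _ _ _ _ _ _ := s.ru g okX13_281 p13_150_10
  have s : St _ β _ _ (2638 * 32) _ _ _ _ _ _ _ _ := s.rnz (i := 84416) g r13_150_12 ⟨by norm_num, c⟩
  have s : St _ β _ _ (2638 * 32) _ _ _ _ _ _ _ _ := s.rnz (i := 84416) g r13_151_0 ⟨by norm_num, c⟩
  have s : St _ β _ _ (2647 * 32) _ _ _ _ _ _ _ _ := s.ru g okX13_283 p13_151_1
  have s : St _ β _ _ (2647 * 32) _ _ _ _ _ _ _ _ := s.rnz (i := 84704) g r13_151_3 ⟨by norm_num, c⟩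
  have s : St _ β _ _ (2668 * 32) _ _ _ _ _ _ _ _ := s.ru g okX13_286 p13_151_4
  have s : St _ β _ _ (2668 * 32) _ _ _ _ _ _ _ _ := s.rnz (i := 85376) g r13_151_8 ⟨by norm_num, c⟩
  have s : St _ β _ _ (2668 * 32) _ _ _ _ _ _ _ _ := s.rnz (i := 85376) g r13_151_9 ⟨by norm_num, c⟩
  have s : St _ β _ _ (2675 * 32) _ _ _ _ _ _ _ _ := s.ru g okX13_290 p13_152_0
  have s : St _ β _ _ (2675 * 32) _ _ _ _ _ _ _ _ := s.rnz (i := 85600) g r13_152_1 ⟨by norm_num, c⟩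
  have s : St _ β _ _ (2676 * 32) _ _ _ _ _ _ _ _ := s.ru g okX13_292 p13_152_2
  have s : St _ β _ _ (2676 * 32) _ _ _ _ _ _ _ _ := s.rnz (i := 85632) g r13_152_3 ⟨by norm_num, c⟩
  have s : St _ β _ _ (2681 * 32) _ _ _ _ _ _ _ _ := s.ru g okX13_292 p13_152_4
  have s : St _ β _ _ (2681 * 32) _ _ _ _ _ _ _ _ := s.rnz (i := 85792) g r13_152_5 ⟨by norm_num, c⟩
  have s : St _ β _ _ (2681 * 32) _ _ _ _ _ _ _ _ := s.rnz (i := 85792) g r13_152_6 ⟨by norm_num, c⟩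
  have s : St _ β _ _ (2682 * 32) _ _ _ _ _ _ _ _ := s.ru g okX13_294 p13_152_7
  have s : St _ β _ _ (2682 * 32) _ _ _ _ _ _ _ _ := s.rnz (i := 85824) g r13_152_8 ⟨by norm_num, c⟩
  have s : St _ β _ _ (2686 * 32) _ _ _ _ _ _ _ _ := s.ru g okX13_294 p13_152_9
  have s : St _ β _ _ (2686 * 32) _ _ _ _ _ _ _ _ := s.rnz (i := 85952) g r13_152_10 ⟨by norm_num, c⟩
  have s : St _ β _ _ (2686 * 32) _ _ _ _ _ _ _ _ := s.rnz (i := 85952) g r13_152_11 ⟨by norm_num, c⟩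
  have s : St _ β _ _ (2687 * 32) _ _ _ _ _ _ _ _ := s.ru g okX13_298 p13_152_12
  have s : St _ β _ _ (2687 * 32) _ _ _ _ _ _ _ _ := s.rnz (i := 85984) g r13_152_13 ⟨by norm_num, c⟩
  have s : St _ β _ _ (2692 * 32) _ _ _ _ _ _ _ _ := s.ru g okX13_298 p13_152_14
  have s : St _ β _ _ (2692 * 32) _ _ _ _ _ _ _ _ := s.rnz (i := 86144) g r13_152_15 ⟨by norm_num, c⟩
  have s : St _ β _ _ (2692 * 32) _ _ _ _ _ _ _ _ := s.rnz (i := 86144) g r13_153_0 ⟨by norm_num, c⟩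
  have s : St _ β _ _ (2692 * 32) _ _ _ _ _ _ _ _ := s.rnz (i := 86144) g r13_153_1 ⟨by norm_num, c⟩
  have s : St _ β _ _ (2693 * 32) _ _ _ _ _ _ _ _ := s.ru g okX13_303 p13_153_2
  have s : St _ β _ _ (2693 * 32) _ _ _ _ _ _ _ _ := s.rnz (i := 86176) g r13_153_3 ⟨by norm_num, c⟩
  have s : St _ β _ _ (2697 * 32) _ _ _ _ _ _ _ _ := s.ru g okX13_303 p13_153_4
  have s : St _ β _ _ (2697 * 32) _ _ _ _ _ _ _ _ := s.rnz (i := 86304) g r13_153_5 ⟨by norm_num, c⟩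
  have s : St _ β _ _ (2697 * 32) _ _ _ _ _ _ _ _ := s.rnz (i := 86304) g r13_153_6 ⟨by norm_num, c⟩
  have s : St _ β _ _ (2698 * 32) _ _ _ _ _ _ _ _ := s.ru g okX13_308 p13_153_7
  have s : St _ β _ _ (2698 * 32) _ _ _ _ _ _ _ _ := s.rnz (i := 86336) g r13_153_8 ⟨by norm_num, c⟩
  have s : St _ β _ _ (2700 * 32) _ _ _ _ _ _ _ _ := s.ru g okX13_308 p13_153_9
  have s : St _ β _ _ (2700 * 32) _ _ _ _ _ _ _ _ := s.rnz (i := 86400) g r13_153_10 ⟨by norm_num, c⟩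
  exact s.out g (by decide +kernel)

theorem many : Many2 ⟨FA, FB, FT, 64026, 10037, 38830, geo_ok⟩ 10037 9830 :=
  ((seg1.app seg2 (by norm_num)).app seg13 (by norm_num)).many (by norm_num)

end

end Pool.Agent.MP_1037db_co.Q.C
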